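import Pool.Agent.H8.Comp1

namespace Pool.Agent.Results.MP_2d2d9d_co.AllClasses
open Set Function

/-- A countable family of closed sets covering the plane, with pairwise disjoint interiors. -/
def IsTiling (𝒯 : Set (Set ℂ)) : Prop :=
  𝒯.Countable ∧ (∀ T ∈ 𝒯, IsClosed T) ∧ ⋃₀ 𝒯 = univ ∧
    𝒯.Pairwise fun S T => Disjoint (interior S) (interior T)

/-- `f` is an isometry of the plane that maps the family `𝒯` onto itself. -/
def IsSym (𝒯 : Set (Set ℂ)) (f : ℂ → ℂ) : Prop := Isometry f ∧ (fun T => f '' T) '' 𝒯 = 𝒯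

/-- `𝒯` is an isohedral tiling, each tile is the union of `k` pairwise disjoint closed disks, and
these fall into exactly `t` classes under the symmetries of `𝒯` that map the tile onto itself. -/
def ClassTiling (t k : ℕ) (𝒯 : Set (Set ℂ)) : Prop :=
  IsTiling 𝒯 ∧ (∀ S ∈ 𝒯, ∀ T ∈ 𝒯, ∃ f, IsSym 𝒯 f ∧ f '' S = T) ∧
    ∀ T ∈ 𝒯, ∃ (C : Fin k → Set ℂ) (a : Fin k → Fin t),
      (∀ i, IsClosed (C i) ∧ Nonempty (C i ≃ₜ Metric.closedBall (0 : ℂ) 1)) ∧
      (Pairwise fun i j => Disjoint (C i) (C j)) ∧ ⋃ i, C i = T ∧ Surjective a ∧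
      ∀ i j, (∃ f, IsSym 𝒯 f ∧ f '' T = T ∧ f '' C i = C j) ↔ a i = a j

open Pool.Agent.H8.Comp in
theorem result (t : ℕ) (ht : 0 < t) : ∃ 𝒯, ClassTiling t (12 * t) 𝒯 := by
  have S : ∀ k b, IsSym (range fun l => ⋃ p, C t l p) (F k b) := fun k b => ⟨F_iso _ _, by
    rw [← range_comp]
    obtain ⟨a, ha⟩ := mul2 b 0
    exact (congrArg range (funext (F_T b k))).trans (Surjective.range_comp (f := fun l => k + m b l)
      (fun l => ⟨m a (l - k), by simp [ha.eq, m_zero]⟩) fun l => ⋃ p, C t l p)⟩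
  refine ⟨range fun l => ⋃ p, C t l p, ⟨countable_range _, ?_, ?_, ?_⟩, ?_, ?_⟩
  · rintro _ ⟨l, rfl⟩
    exact isClosed_iUnion_of_finite fun p => (C_disk l p).1
  · exact eq_univ_of_forall fun z => by simpa using cover ht z
  · rintro _ ⟨l, rfl⟩ _ ⟨k, rfl⟩ h
    exact disjU (fun p => (C_disk l p).1) fun p => (disjU (fun p => (C_disk k p).1) fun q =>
      C_int_disj (fun e => h (by rw [e])) q p).symm
  · rintro _ ⟨l, rfl⟩ _ ⟨k, rfl⟩
    exact ⟨_, S (k - l) 0, by simp [F_T, m_zero]⟩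
  · rintro _ ⟨l, rfl⟩
    refine ⟨fun i => C t l (finProdFinEquiv.symm i), fun i => (finProdFinEquiv.symm i).2,
      fun i => C_disk _ _, fun i j h => C_disj l (finProdFinEquiv.symm.injective.ne h),
      finProdFinEquiv.symm.surjective.iUnion_comp _,
      Prod.snd_surjective.comp finProdFinEquiv.symm.surjective, fun i j => ?_⟩
    dsimp only
    generalize finProdFinEquiv.symm i = p, finProdFinEquiv.symm j = q
    constructor
    · rintro ⟨f, ⟨hf, -⟩, h1, h2⟩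
      obtain ⟨x, hx⟩ := (C_disk l p).2.some.symm ⟨0, by simp⟩
      have hy := h2.le ⟨x, hx, rfl⟩
      refine le_antisymm (far hx hy fun x' h => ⟨_, h1.le ⟨x', h, rfl⟩, (hf.dist_eq _ _).symm⟩)
        (far hy hx fun y' h => ?_)
      obtain ⟨x', h', rfl⟩ := h1.ge h
      exact ⟨x', h', hf.dist_eq _ _⟩
    · obtain ⟨a, i⟩ := p
      obtain ⟨d, j⟩ := q
      rintro (rfl : i = j)
      obtain ⟨b, hb⟩ := mul3 a d
      exact ⟨_, S (l - m b l) b, by simp [F_T], by simp [F_C hb]⟩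

end Pool.Agent.Results.MP_2d2d9d_co.AllClasses
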